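import Pool.Agent.H560Bh.Two

namespace Pool.Agent.Results.MP_9225bc_co.Asymptotic

open Pool.Agent.H560Bh

/-- With `Δ ≤ 19/108` the critical determinant of the octahedron: for even `t ≥ 2` every `n` with
`t ^ 2 / 2 + t + 1 ≤ n < Δ (t + 1) ^ 3` has `τ_±(ℤ_n,[1,t]) = 2`, and for every `ρ > Δ` and every
large `t`, `τ_±(ℤ_n,[1,t]) = 2` implies `n ≤ ρ t ^ 3`. -/
theorem result :
    0 < critN (l1 (d := 3)) ∧ critN (l1 (d := 3)) ≤ 19 / 108 ∧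
    (∀ t n : ℕ, Even t → 2 ≤ t → t ^ 2 / 2 + t + 1 ≤ n →
      (n : ℝ) < critN (l1 (d := 3)) * ((t : ℝ) + 1) ^ 3 → tau n t = 2) ∧
    (∀ ρ : ℝ, critN (l1 (d := 3)) < ρ →
      ∃ t₀ : ℕ, ∀ t ≥ t₀, ∀ n : ℕ, 0 < n → tau n t = 2 → (n : ℝ) ≤ ρ * (t : ℝ) ^ 3) := by
  have h0 : 0 < critN (l1 (d := 3)) := crit_l1_pos 2
  refine ⟨h0, crit3_le, ?_, ?_⟩
  · intro t n ht h2 hn hlt
    obtain ⟨k, hk⟩ := ht
    have hk' : t = 2 * k := by omega
    subst hk'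
    have e : (2 * k) ^ 2 / 2 = 2 * k ^ 2 := by
      rw [show (2 * k) ^ 2 = 2 * (2 * k ^ 2) by ring]
      exact Nat.mul_div_cancel_left _ (by norm_num)
    rw [e] at hn
    have h3 := tau_two k n (by omega) hn
    have hn0 : 0 < n := by omega
    by_contra hne
    have h4 : 2 + 1 ≤ tau n (2 * k) := by omega
    have h5 := tindep_lower 2 n (2 * k) hn0 h4
    exact absurd hlt (not_lt.mpr h5)
  · intro ρ hρ
    have hρ0 : 0 < ρ := h0.trans hρ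
    obtain ⟨n₀, hn₀⟩ := tindep_upper 2 ρ hρ hρ0
    obtain ⟨t₀, ht₀⟩ := exists_nat_ge ((n₀ : ℝ) / ρ)
    refine ⟨max t₀ 1, fun t ht n hn h2 => ?_⟩
    by_contra hlt
    rw [not_le] at hlt
    have ht1 : (t₀ : ℝ) ≤ t := by exact_mod_cast (le_max_left _ _).trans ht
    have ht2 : (1 : ℝ) ≤ t := by exact_mod_cast (le_max_right _ _).trans ht
    have ht3 : (t : ℝ) ≤ (t : ℝ) ^ 3 := le_self_pow₀ ht2 (by norm_num)
    have h3 : (n₀ : ℝ) ≤ n := by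
      have h4 : (n₀ : ℝ) ≤ ρ * t := by
        rw [div_le_iff₀' hρ0] at ht₀
        nlinarith
      nlinarith
    have h5 := hn₀ n (by exact_mod_cast h3) t hlt
    omega

end Pool.Agent.Results.MP_9225bc_co.Asymptotic
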